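import Mathlib

namespace Pool.Agent.Results.MP_a2947a_pr.Bounds
open MeasureTheory ProbabilityTheory Filter Finset Real
open scoped Topology

/-- the Ulam–Kac adder driven by `U(n) = ω n ∈ {0, …, n}` -/
def X (ω : (n : ℕ) → Fin (n + 1)) : ℕ → ℕ
  | 0 => 1
  | n + 1 => X ω n + X ω (ω n)
decreasing_by exacts [n.lt_succ_self, (ω n).2]

/-- the `U(n)` are independent and uniform -/
noncomputable def P : Measure ((n : ℕ) → Fin (n + 1)) :=
  Measure.infinitePi fun _ => uniformOn Set.univ

/-- `E[X_n^m]` -/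
noncomputable def mom (m n : ℕ) : ℝ := ∫ ω, (X ω n : ℝ) ^ m ∂P

instance : IsProbabilityMeasure P := by unfold P; infer_instance

def Dep {α : Type} (n : ℕ) (F : ((n : ℕ) → Fin (n + 1)) → α) : Prop :=
  ∀ ω ω', (∀ i < n, ω i = ω' i) → F ω = F ω'

variable {n m : ℕ}

lemma X_dep {k : ℕ} (hk : k ≤ n) : Dep n fun ω => X ω k := fun ω ω' h => by
  induction k using Nat.strong_induction_on with
  | _ k ih =>
    cases k with
    | zero => simp [X]
    | succ k =>
      simp only [X, ← h k hk]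
      exact congrArg₂ _ (ih k k.lt_succ_self (by omega)) (ih _ (ω k).2 (by have := (ω k).2; omega))

lemma X_mono (ω : (n : ℕ) → Fin (n + 1)) : Monotone (X ω) :=
  monotone_nat_of_le_succ fun n => by simp [X]

lemma factor {F : ((n : ℕ) → Fin (n + 1)) → ℝ} (h : Dep n F) :
    ∃ g : ((i : range n) → Fin (i + 1)) → ℝ, F = g ∘ fun ω i => ω i :=
  ⟨fun v => F fun i => if h : i ∈ range n then v ⟨i, h⟩ else 0,
    funext fun ω => h _ _ fun i hi => by simp [hi]⟩

lemma integ {F : ((n : ℕ) → Fin (n + 1)) → ℝ} (h : Dep n F) : Integrable F P := by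
  obtain ⟨g, rfl⟩ := factor h
  exact Integrable.of_finite.comp_measurable (by fun_prop)

lemma step (G : ℕ → ((n : ℕ) → Fin (n + 1)) → ℝ) (h : ∀ k ≤ n, Dep n (G k)) :
    ∫ ω, G (ω n) ω ∂P = (∑ k ∈ range (n + 1), ∫ ω, G k ω ∂P) / (n + 1) := by
  have e : ∀ ω : (n : ℕ) → Fin (n + 1), G (ω n) ω =
      ∑ k : Fin (n + 1), (if ω n = k then 1 else 0) * G k ω := by simp
  simp_rw [e]
  rw [integral_finsetSum _ fun k _ => integ (n := n + 1) fun ω ω' H => by
      simp only [H n n.lt_succ_self, h k (Nat.le_of_lt_succ k.2) ω ω' fun i hi => H i (by omega)],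
    ← Fin.sum_univ_eq_sum_range fun k => ∫ ω, G k ω ∂P, sum_div]
  refine sum_congr rfl fun k _ => ?_
  obtain ⟨g, hg⟩ := factor (h k (Nat.le_of_lt_succ k.2))
  have ind := ((iIndepFun_infinitePi (P := fun n : ℕ => uniformOn (Set.univ : Set (Fin (n + 1))))
    (X := fun _ => id) fun _ => measurable_id).indepFun_finset {n} (range n) (by simp)
    fun i => measurable_pi_apply i).comp
    (φ := fun v => if v ⟨n, mem_singleton_self n⟩ = k then (1 : ℝ) else 0) (ψ := g)
    (measurable_of_finite _) (measurable_of_finite _)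
  have m1 : Measurable fun v : Fin (n + 1) => if v = k then (1 : ℝ) else 0 := measurable_of_finite _
  rw [hg]
  refine (ind.integral_fun_mul_eq_mul_integral
    (m1.comp (measurable_pi_apply n)).aestronglyMeasurable
    ((measurable_of_finite g).comp (by fun_prop)).aestronglyMeasurable).trans ?_
  rw [div_eq_inv_mul]
  congr 1
  have mp := measurePreserving_eval_infinitePi
    (fun n : ℕ => uniformOn (Set.univ : Set (Fin (n + 1)))) n
  refine (integral_map mp.aemeasurable m1.aestronglyMeasurable).symm.trans ?_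
  rw [mp.map_eq, integral_fintype .of_finite]
  simp [measureReal_def, uniformOn_univ, ENNReal.toReal_add]

lemma iX (k : ℕ) : Integrable (fun ω => (X ω k : ℝ) ^ m) P :=
  integ (n := k) fun ω ω' h => by simp only [X_dep le_rfl ω ω' h]

lemma dep2 {k : ℕ} (hk : k ≤ n) : Dep n fun ω => (X ω n + X ω k : ℝ) ^ m :=
  fun ω ω' h => by simp only [X_dep le_rfl ω ω' h, X_dep hk ω ω' h]

lemma mom_succ : mom m (n + 1) =
    (∑ k ∈ range (n + 1), ∫ ω, (X ω n + X ω k : ℝ) ^ m ∂P) / (n + 1) := by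
  rw [← step (fun k ω => (X ω n + X ω k : ℝ) ^ m) fun k hk => dep2 hk]
  simp [mom, X]

lemma one_le (n : ℕ) : 1 ≤ mom m n := by
  simpa [mom] using integral_mono (integrable_const (1 : ℝ)) (iX n) fun ω => one_le_pow₀
    (Nat.one_le_cast.2 ((by simp [X] : 1 = X ω 0).trans_le (X_mono ω n.zero_le)))

lemma low_pt {x y : ℝ} (hy : 0 ≤ y) (h : y ≤ x) (m : ℕ) :
    x ^ m + (2 ^ m - 1) * y ^ m ≤ (x + y) ^ m := by
  induction m with
  | zero => simp
  | succ m ih =>
    have a : y ^ m ≤ x ^ m := pow_le_pow_left₀ hy h m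
    have b : 0 ≤ (2 ^ m - 1) * y ^ m := mul_nonneg (sub_nonneg.2 (one_le_pow₀ one_le_two)) (by positivity)
    simp only [pow_succ]
    nlinarith [mul_le_mul_of_nonneg_right ih (show 0 ≤ x + y by linarith),
      mul_le_mul_of_nonneg_left h b, mul_le_mul_of_nonneg_right a hy]

lemma low_rec : mom m n + (2 ^ m - 1) * (∑ k ∈ range (n + 1), mom m k) / (n + 1) ≤ mom m (n + 1) := by
  rw [mom_succ, le_div_iff₀ (by positivity), add_mul, div_mul_cancel₀ _ (by positivity), mul_sum]
  refine le_trans (le_of_eq (by simp [sum_add_distrib, mul_comm])) (sum_le_sum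
    (f := fun k => mom m n + (2 ^ m - 1) * mom m k) fun k hk => ?_)
  have hk := Nat.le_of_lt_succ (mem_range.1 hk)
  rw [mom, mom, ← integral_const_mul, ← integral_add (iX _) ((iX _).const_mul _)]
  exact integral_mono ((iX _).add ((iX _).const_mul _)) (integ (dep2 hk)) fun ω =>
    low_pt (Nat.cast_nonneg _) (Nat.cast_le.2 (X_mono ω hk)) m

lemma up_rec (B : ℕ → ℝ) (hB : ∀ k, 0 < B k) (h : ∀ k ≤ n, mom m k ≤ B k ^ m) :
    mom m (n + 1) ≤ (∑ k ∈ range (n + 1), (B n + B k) ^ m) / (n + 1) := by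
  rw [mom_succ]
  gcongr with k hk
  have hk := Nat.le_of_lt_succ (mem_range.1 hk)
  have a := hB n
  have b := hB k
  refine (integral_mono (integ (dep2 hk)) (((iX (m := m) n).const_mul ((B n + B k) ^ m * (B n / (B n + B k)) /
    B n ^ m)).add ((iX (m := m) k).const_mul ((B n + B k) ^ m * (B k / (B n + B k)) / B k ^ m)))
    fun ω => ?_).trans ?_
  · have := (convexOn_pow m).2 (show (X ω n : ℝ) / B n ∈ Set.Ici 0 from by simp; positivity)
      (show (X ω k : ℝ) / B k ∈ Set.Ici 0 from by simp; positivity)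
      (show 0 ≤ B n / (B n + B k) by positivity) (show 0 ≤ B k / (B n + B k) by positivity)
      (by field_simp)
    simp only [smul_eq_mul, div_pow] at this
    rw [show B n / (B n + B k) * (X ω n / B n) + B k / (B n + B k) * (X ω k / B k) =
      (X ω n + X ω k) / (B n + B k) by field_simp, div_pow, div_le_iff₀ (by positivity)] at this
    exact this.trans_eq (by simp only [Pi.add_apply]; ring)
  · rw [integral_add' ((iX n).const_mul _) ((iX k).const_mul _), integral_const_mul,
      integral_const_mul]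
    refine (add_le_add (mul_le_mul_of_nonneg_left (h n le_rfl) (by positivity))
      (mul_le_mul_of_nonneg_left (h k hk) (by positivity))).trans_eq (by field_simp)

lemma geo (q : ℝ) (n : ℕ) : (1 - q) * ∑ k ∈ range (n + 1), q ^ (n - k) = 1 - q ^ (n + 1) := by
  rw [← mul_neg_geom_sum, ← sum_range_reflect]
  exact congrArg _ (sum_congr rfl fun k hk => by
    congr 1; have := mem_range.1 hk; omega)

lemma exp_neg_le {x : ℝ} (hx : 0 ≤ x) : exp (-x) ≤ (1 + x)⁻¹ := by
  rw [exp_neg]; gcongr; linarith [add_one_le_exp x]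

lemma lower {c : ℝ} (hc : 0 < c) (h : c ^ 2 < 2 * (2 ^ m - 1)) :
    ∃ δ > 0, ∀ n : ℕ, δ * exp (c * √n) ≤ mom m n := by
  set κ : ℝ := 2 ^ m - 1
  have hκ : 0 < κ := by nlinarith
  have hη : 0 < κ / c - c / 2 := by rw [sub_pos, div_lt_div_iff₀ two_pos hc]; nlinarith
  obtain ⟨N, hN⟩ := eventually_atTop.1 ((tendsto_sqrt_atTop.comp tendsto_natCast_atTop_atTop).eventually_ge_atTop
    (max (max 1 c) ((c ^ 2 / 2 + c / 2 + κ / c ^ 2) / (κ / c - c / 2))))
  refine ⟨exp (-(c * √N)), exp_pos _, fun n => ?_⟩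
  induction n using Nat.strong_induction_on with | _ n ih => ?_
  rcases le_or_gt n N with h1 | h1
  · refine le_trans ?_ (one_le n)
    rw [← exp_add, exp_le_one_iff, neg_add_nonpos_iff]; gcongr
  obtain ⟨n, rfl⟩ := Nat.exists_eq_succ_of_ne_zero (Nat.ne_zero_of_lt h1)
  have h2 := hN n (by omega)
  simp only [Function.comp, max_le_iff] at h2
  obtain ⟨⟨r1, r2⟩, r3⟩ := h2
  set r := √(n : ℝ) with hr
  have rr : r ^ 2 = n := sq_sqrt n.cast_nonneg
  have r0 : 0 < r := by linarith
  refine le_trans ?_ low_rec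
  have s1 : ∀ k ∈ range (n + 1), exp (-(c * √N)) * exp (c * r) * exp (-(c / r)) ^ (n - k) ≤
      mom m k := fun k hk => by
    refine le_trans ?_ (ih k (mem_range.1 hk))
    have hk := Nat.le_of_lt_succ (mem_range.1 hk)
    have : √k ≤ r := sqrt_le_sqrt (Nat.cast_le.2 hk)
    rw [mul_assoc, ← exp_nat_mul, ← exp_add, Nat.cast_sub hk, ← rr]
    gcongr
    rw [← sub_nonneg, show c * √k - (c * r + (r ^ 2 - k) * -(c / r)) = c * (√k * r - k) / r by
      field_simp; ring]
    have : (k : ℝ) ≤ √k * r := by nlinarith [sq_sqrt k.cast_nonneg, sqrt_nonneg k]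
    have := sub_nonneg.2 this
    positivity
  have s2 := sum_le_sum s1
  rw [← mul_sum] at s2
  set S := ∑ k ∈ range (n + 1), exp (-(c / r)) ^ (n - k)
  have s3 : r / c - 1 / c ^ 2 ≤ S := by
    have a : exp (-(c / r)) ^ (n + 1) ≤ 1 / (c * r) := by
      rw [← exp_nat_mul]
      refine (exp_le_exp.2 (?_ : _ ≤ -(c * r))).trans ((exp_neg_le (by positivity)).trans ?_)
      · rw [mul_neg, neg_le_neg_iff, ← mul_div_assoc, le_div_iff₀ r0]; push_cast; nlinarith
      · rw [one_div]; gcongr; linarith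
    have b : (1 - exp (-(c / r))) * S ≤ c / r * S :=
      mul_le_mul_of_nonneg_right (by linarith [add_one_le_exp (-(c / r))]) (by positivity)
    rw [geo] at b
    rw [show r / c - 1 / c ^ 2 = r / c * (1 - 1 / (c * r)) by field_simp,
      show S = r / c * (c / r * S) by field_simp]
    gcongr; linarith
  have s4 : exp (c * √(n.succ : ℕ)) ≤ exp (c * r) * (1 + c / (2 * r) + (c / (2 * r)) ^ 2) := by
    have a : √(n.succ : ℕ) ≤ r + 1 / (2 * r) := sqrt_le_iff.2 ⟨by positivity, by
      push_cast; rw [← rr, add_sq, mul_one_div_cancel (by positivity)]; simp; positivity⟩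
    have b := (abs_le.1 (abs_exp_sub_one_sub_id_le (x := c / (2 * r)) (by
      rw [abs_of_pos (by positivity), div_le_one (by positivity)]; linarith))).2
    refine (exp_le_exp.2 (mul_le_mul_of_nonneg_left a hc.le)).trans ?_
    rw [mul_add, exp_add, mul_one_div]
    gcongr; linarith
  have s5 : c / (2 * r) + (c / (2 * r)) ^ 2 ≤ κ * S / (n + 1) := by
    rw [le_div_iff₀ (by positivity), ← rr]
    rw [div_le_iff₀ hη] at r3
    have a : c / (2 * r) ≤ c / 2 := by gcongr; linarith
    have b : (c / (2 * r)) ^ 2 ≤ (c / 2) ^ 2 := by gcongr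
    have e : (c / (2 * r) + (c / (2 * r)) ^ 2) * (r ^ 2 + 1) =
        r * (c / 2) + c ^ 2 / 4 + c / (2 * r) + (c / (2 * r)) ^ 2 := by field_simp; ring
    have f : κ * (r / c - 1 / c ^ 2) = r * (κ / c) - κ / c ^ 2 := by ring
    nlinarith [mul_le_mul_of_nonneg_left s3 hκ.le]
  have s6 := ih n n.lt_succ_self
  have s7 : exp (-(c * √N)) * exp (c * r) * (κ * S / (n + 1)) ≤
      κ * (∑ k ∈ range (n + 1), mom m k) / (n + 1) := by
    rw [← mul_div_assoc, mul_left_comm]; gcongr
  have p : 0 < exp (-(c * √N)) * exp (c * r) := by positivity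
  nlinarith [mul_le_mul_of_nonneg_left s4 (exp_pos (-(c * √N))).le, mul_le_mul_of_nonneg_left s5 p.le]

noncomputable def I (m : ℕ) : ℝ := ∑ j ∈ range m, (m.choose (j + 1) : ℝ) / (j + 1)

lemma upper (hm : 0 < m) {β : ℝ} (hβ : 0 < β) (h : 4 * I m < m * β ^ 2) :
    ∃ D, ∀ n : ℕ, mom m n ≤ D * exp (m * β * √n) := by
  have hη : 0 < m * β / 2 - 2 * I m / β := by rw [sub_pos, div_lt_div_iff₀ hβ two_pos]; nlinarith
  obtain ⟨N, hN⟩ := eventually_atTop.1 ((tendsto_sqrt_atTop.comp tendsto_natCast_atTop_atTop).eventually_ge_atTop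
    (max 1 (2 ^ m / (m * β / 2 - 2 * I m / β))))
  set D := ∑ k ∈ range (N + 1), mom m k
  have hD : ∀ k ≤ N, mom m k ≤ D := fun k hk => single_le_sum (f := mom m)
    (fun i _ => zero_le_one.trans (one_le i)) (mem_range.2 (by omega))
  have D1 : 1 ≤ D := (one_le 0).trans (hD 0 N.zero_le)
  suffices ∀ n : ℕ, mom m n ≤ (D * exp (β * √n)) ^ m from
    ⟨D ^ m, fun n => by simpa [mul_pow, ← exp_nat_mul, mul_assoc] using this n⟩
  intro n
  induction n using Nat.strong_induction_on with | _ n ih => ?_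
  rcases le_or_gt n N with h1 | h1
  · have : D ≤ D * exp (β * √n) := le_mul_of_one_le_right (by linarith) (one_le_exp (by positivity))
    exact (hD n h1).trans (this.trans (le_self_pow₀ (D1.trans this) hm.ne'))
  obtain ⟨n, rfl⟩ := Nat.exists_eq_succ_of_ne_zero (Nat.ne_zero_of_lt h1)
  have h2 := hN n (by omega)
  simp only [Function.comp, max_le_iff] at h2
  obtain ⟨r1, r3⟩ := h2
  set r := √(n : ℝ) with hr
  have rr : r ^ 2 = n := sq_sqrt n.cast_nonneg
  have r0 : 0 < r := by linarith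
  refine (up_rec (fun k => D * exp (β * √k)) (fun k => by positivity)
    fun k hk => ih k (by omega)).trans ?_
  have s1 : ∀ k ∈ range (n + 1), (D * exp (β * r) + D * exp (β * √k)) ^ m ≤ (D * exp (β * r)) ^ m *
      (1 + ∑ j ∈ range m, m.choose (j + 1) * exp (-((j + 1) * β / (2 * r))) ^ (n - k)) :=
    fun k hk => by
      have hk := Nat.le_of_lt_succ (mem_range.1 hk)
      have : √k ≤ r := sqrt_le_sqrt (Nat.cast_le.2 hk)
      have a : exp (β * √k) ≤ exp (β * r) * exp (-(β / (2 * r))) ^ (n - k) := by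
        rw [← exp_nat_mul, ← exp_add, Nat.cast_sub hk, ← rr, exp_le_exp, ← sub_nonneg,
          show β * r + (r ^ 2 - k) * -(β / (2 * r)) - β * √k = β * (r ^ 2 - 2 * r * √k + k) / (2 * r) by
            field_simp; ring]
        have : 0 ≤ r ^ 2 - 2 * r * √k + k := by nlinarith [sq_sqrt k.cast_nonneg, sq_nonneg (r - √k)]
        positivity
      refine (pow_le_pow_left₀ (by positivity) (b := D * exp (β * r) *
        (exp (-(β / (2 * r))) ^ (n - k) + 1)) (by nlinarith) m).trans_eq ?_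
      rw [mul_pow _ (_ + _), add_pow, sum_range_succ', add_comm]
      simp only [one_pow, mul_one, pow_zero, Nat.choose_zero_right, Nat.cast_one]
      refine congrArg _ (congrArg _ (sum_congr rfl fun j _ => ?_))
      simp only [← exp_nat_mul]
      rw [mul_comm]; congr 2; push_cast; ring
  have s2 : ∀ j ∈ range m, ∑ k ∈ range (n + 1), m.choose (j + 1) *
      exp (-((j + 1) * β / (2 * r))) ^ (n - k) ≤
      m.choose (j + 1) + 2 * r / β * ((m.choose (j + 1) : ℝ) / (j + 1)) := fun j _ => by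
    rw [← mul_sum, show (m.choose (j + 1) : ℝ) + 2 * r / β * (m.choose (j + 1) / (j + 1)) =
      m.choose (j + 1) * (1 + ((j + 1) * β / (2 * r))⁻¹) by field_simp]
    gcongr
    set x := (j + 1) * β / (2 * r)
    have hx : 0 < x := by positivity
    have a := geo (exp (-x)) n
    have b := exp_neg_le hx.le
    set S := ∑ k ∈ range (n + 1), exp (-x) ^ (n - k)
    have c : (1 - (1 + x)⁻¹) * S ≤ 1 := by
      nlinarith [show 0 ≤ S by positivity, show 0 < exp (-x) ^ (n + 1) by positivity]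
    rw [show S = (1 + x⁻¹) * ((1 - (1 + x)⁻¹) * S) by field_simp; ring]
    exact mul_le_of_le_one_right (by positivity) c
  have s3 : ∑ j ∈ range m, (m.choose (j + 1) : ℝ) ≤ 2 ^ m := by
    have := Nat.sum_range_choose m
    rw [sum_range_succ'] at this
    exact_mod_cast (Nat.le_add_right _ _).trans_eq this
  have s4 := sum_le_sum s2
  rw [sum_add_distrib, ← mul_sum, ← I, sum_comm] at s4
  have s5 := sum_le_sum s1
  rw [← mul_sum, sum_add_distrib, sum_const, card_range, nsmul_one] at s5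
  set t := √((n.succ : ℕ) : ℝ)
  have tt : t ^ 2 = n + 1 := by rw [sq_sqrt (Nat.cast_nonneg _)]; simp
  have rt : r ≤ t := sqrt_le_sqrt (by simp)
  have hI : 0 ≤ I m := by unfold I; positivity
  have s6 : (n + 1 + (2 ^ m + 2 * r / β * I m)) ≤ exp (m * β * (t - r)) * (n + 1) := by
    rw [div_le_iff₀ hη] at r3
    have a : t / 2 ≤ (t - r) * t ^ 2 := by nlinarith [sq_nonneg (t - r)]
    have b : r * (2 * I m / β) ≤ t * (2 * I m / β) := by gcongr
    have c : r * (m * β / 2 - 2 * I m / β) ≤ t * (m * β / 2 - 2 * I m / β) := by gcongr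
    have d : 2 * r / β * I m = r * (2 * I m / β) := by ring
    rw [← tt]
    nlinarith [mul_le_mul_of_nonneg_right (add_one_le_exp (m * β * (t - r))) (sq_nonneg t),
      mul_le_mul_of_nonneg_left a (show 0 ≤ m * β by positivity)]
  rw [div_le_iff₀ (by positivity), show (D * exp (β * t)) ^ m = (D * exp (β * r)) ^ m *
    exp (m * β * (t - r)) by simp only [mul_pow, ← exp_nat_mul, mul_assoc, ← exp_add]; ring_nf,
    mul_assoc]
  refine s5.trans (mul_le_mul_of_nonneg_left ?_ (by positivity))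
  push_cast; linarith

lemma I_lt (hm : 0 < m) : 4 * m * I m < 7.38 * 2.225 ^ m := by
  rcases lt_or_ge m 8 with h | h
  · interval_cases m <;> simp [I, sum_range_succ, Nat.choose] <;> norm_num
  have a : (m + 1) * I m ≤ 2 * 2 ^ (m + 1) := by
    have := Nat.sum_range_choose (m + 1)
    rw [sum_range_succ', sum_range_succ', add_assoc] at this
    have : ∑ j ∈ range m, ((m + 1).choose (j + 1 + 1) : ℝ) ≤ 2 ^ (m + 1) := by
      exact_mod_cast (Nat.le_add_right _ _).trans_eq this
    refine le_trans ?_ (mul_le_mul_of_nonneg_left this two_pos.le)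
    rw [I, mul_sum, mul_sum]
    refine sum_le_sum fun j _ => ?_
    have e : ((m + 1) * m.choose (j + 1) : ℝ) = (m + 1).choose (j + 1 + 1) * (j + 1 + 1) := by
      exact_mod_cast Nat.add_one_mul_choose_eq m (j + 1)
    rw [← mul_div_assoc, e, div_le_iff₀ (by positivity)]
    nlinarith [((m + 1).choose (j + 1 + 1)).cast_nonneg (α := ℝ), j.cast_nonneg (α := ℝ)]
  have b := pow_le_pow_right₀ (show (1 : ℝ) ≤ 1.1125 by norm_num) h
  have hI : 0 ≤ I m := by unfold I; positivity
  rw [show (2.225 : ℝ) = 1.1125 * 2 by norm_num, mul_pow]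
  rw [pow_succ] at a
  nlinarith [show (0 : ℝ) < 2 ^ m by positivity]

theorem result (m : ℕ) (hm : 1 ≤ m) :
    (∃ δ > 0, ∃ D, ∀ n : ℕ, δ * exp (exp (0.3 * m) * √n) ≤ mom m n ∧
      mom m n ≤ D * exp (exp (0.4 * m + 1) * √n)) ∧
    ∀ c, Tendsto (fun n : ℕ => log (mom m n) / √n) atTop (𝓝 c) →
      0 < c ∧ 0.3 * m ≤ log c ∧ log c ≤ 0.4 * m + 1 := by
  have m0 : (0 : ℝ) < m := by exact_mod_cast hm
  obtain ⟨δ, hδ, h1⟩ := lower (m := m) (exp_pos (0.3 * m)) (by
    have a : exp 0.6 < 2 := by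
      rw [← lt_log_iff_exp_lt two_pos]; linarith [log_two_gt_d9]
    have b := pow_lt_pow_left₀ a (exp_pos _).le (Nat.ne_zero_of_lt hm)
    have c := pow_le_pow_right₀ (one_le_two (α := ℝ)) hm
    rw [← exp_nat_mul] at b ⊢
    rw [show ((2 : ℕ) : ℝ) * (0.3 * m) = m * 0.6 by push_cast; ring]
    linarith)
  obtain ⟨D, h2⟩ := upper hm (β := exp (0.4 * m + 1) / m) (by positivity) (by
    have a : 2.225 ≤ exp 0.8 := le_trans (by simp [sum_range_succ, Nat.factorial]; norm_num)
      (sum_le_exp_of_nonneg (by norm_num) 6)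
    have b : exp (0.4 * m + 1) ^ 2 = exp 1 ^ 2 * exp 0.8 ^ m := by
      simp only [← exp_nat_mul, ← exp_add]; congr 1; push_cast; ring
    have c : 7.38 ≤ exp 1 ^ 2 := by nlinarith [exp_one_gt_d9]
    rw [div_pow, b, sq (m : ℝ), ← mul_div_assoc, mul_div_mul_left _ _ m0.ne', lt_div_iff₀ m0,
      mul_right_comm]
    exact (I_lt hm).trans_le (by gcongr))
  rw [mul_div_cancel₀ _ m0.ne'] at h2
  refine ⟨⟨δ, hδ, D, fun n => ⟨h1 n, h2 n⟩⟩, fun c hc => ?_⟩
  have t : ∀ a b : ℝ, Tendsto (fun n : ℕ => a / √n + b) atTop (𝓝 b) := fun a b => by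
    simpa using ((tendsto_sqrt_atTop.comp tendsto_natCast_atTop_atTop).const_div_atTop a).add_const b
  have D0 : 0 < D := by simpa using one_pos.trans_le ((one_le 0).trans (h2 0))
  have e : ∀ a > 0, ∀ b, ∀ n > 0, log a / √(n : ℕ) + b = log (a * exp (b * √n)) / √n :=
    fun a ha b n hn => by
      rw [log_mul ha.ne' (exp_pos _).ne', log_exp]; field_simp
  have l := le_of_tendsto_of_tendsto (t (log δ) (exp (0.3 * m))) hc
    ((eventually_gt_atTop 0).mono fun n hn => by
      simp only [e δ hδ _ n hn]; gcongr; exact h1 n)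
  have u := le_of_tendsto_of_tendsto hc (t (log D) (exp (0.4 * m + 1)))
    ((eventually_gt_atTop 0).mono fun n hn => by
      simp only [e D D0 _ n hn]; gcongr
      exacts [one_pos.trans_le (one_le n), h2 n])
  have c0 := (exp_pos _).trans_le l
  exact ⟨c0, (le_log_iff_exp_le c0).2 l, (log_le_iff_le_exp c0).2 u⟩

end Pool.Agent.Results.MP_a2947a_pr.Bounds
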